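import Pool.Agent.Helper78K9.DL.Stm

/-!
# [ATR] abelian extensions of odd order are totally real
-/

set_option autoImplicit false

namespace Pool.Agent.Helper78K9.DL

open NumberField Pool.Agent.Helper8K9.DC IntermediateField

namespace Atr

theorem isGalois_QQ : IsGalois ℚ QQ := inferInstance

theorem isGalois_of_normal (K : IntermediateField ℚ QQ) (h : K.fixingSubgroup.Normal) :
    IsGalois ℚ K := by
  have h1 := (InfiniteGalois.normal_iff_isGalois K).1 h
  convert h1
  exact Subsingleton.elim _ _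

theorem mem_ker (K : IntermediateField ℚ QQ) [Normal ℚ K] (γ : GQ) :
    AlgEquiv.restrictNormalHom K γ = 1 ↔ γ ∈ K.fixingSubgroup := by
  rw [IntermediateField.mem_fixingSubgroup_iff]
  constructor
  · intro h x hx
    have h1 := AlgEquiv.restrictNormal_commutes γ K ⟨x, hx⟩
    have h2 : γ.restrictNormal K ⟨x, hx⟩ = ⟨x, hx⟩ := by
      change AlgEquiv.restrictNormalHom K γ ⟨x, hx⟩ = _
      rw [h]
      rfl
    rw [h2] at h1
    exact h1.symm
  · intro h
    refine AlgEquiv.ext fun x => ?_
    apply (algebraMap K QQ).injective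
    exact (AlgEquiv.restrictNormal_commutes γ _ x).trans (h x.1 x.2)

end Atr

theorem atr : S_ATR := by
  intro A _ _ π hodd hsurj V K _ hK
  have hN : K.fixingSubgroup.Normal := by
    rw [hK]
    infer_instance
  have hG : IsGalois ℚ K := Atr.isGalois_of_normal K hN
  have hNK : Normal ℚ K := hG.to_normal
  have hker : (AlgEquiv.restrictNormalHom (F := ℚ) (K₁ := QQ) K).ker = V.comap π := by
    ext γ
    rw [MonoidHom.mem_ker, Atr.mem_ker, hK]
  have hsur : Function.Surjective (AlgEquiv.restrictNormalHom (F := ℚ) (K₁ := QQ) K) :=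
    AlgEquiv.restrictNormalHom_surjective QQ
  have hcard : Nat.card (K ≃ₐ[ℚ] K) = V.index := by
    have h1 := Subgroup.index_ker (AlgEquiv.restrictNormalHom (F := ℚ) (K₁ := QQ) K)
    rw [hker, Subgroup.index_comap_of_surjective V hsurj,
      MonoidHom.range_eq_top.2 hsur, Subgroup.card_top] at h1
    exact h1.symm
  have hfin : Module.finrank ℚ K = V.index := by
    rw [← hcard, IsGalois.card_aut_eq_finrank]
  have hoddK : Odd (Module.finrank ℚ K) := by
    rw [hfin]
    obtain ⟨r, hr⟩ := V.index_dvd_card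
    rw [hr] at hodd
    exact Nat.Odd.of_mul_left hodd
  have hcomm : IsMulCommutative (K ≃ₐ[ℚ] K) := by
    refine ⟨⟨fun a b => ?_⟩⟩
    obtain ⟨x, rfl⟩ := hsur a
    obtain ⟨y, rfl⟩ := hsur b
    rw [← map_mul, ← map_mul, ← inv_mul_eq_one, ← map_inv, ← map_mul]
    have h1 : (x * y)⁻¹ * (y * x) ∈
        (AlgEquiv.restrictNormalHom (F := ℚ) (K₁ := QQ) K).ker := by
      rw [hker, Subgroup.mem_comap]
      have h2 : π ((x * y)⁻¹ * (y * x)) = 1 := by
        rw [map_mul, map_inv, map_mul, map_mul, mul_comm (π y) (π x), inv_mul_cancel]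
      rw [h2]
      exact V.one_mem
    exact h1
  refine ⟨?_, ?_, hfin⟩
  · exact { hG, hcomm with }
  · have h1 : IsUnramifiedAtInfinitePlaces ℚ K := IsUnramifiedAtInfinitePlaces_of_odd_finrank hoddK
    refine ⟨fun v => ?_⟩
    have h2 := NumberField.InfinitePlace.isUnramified ℚ v
    rw [InfinitePlace.isUnramified_iff] at h2
    rcases h2 with h2 | h2
    · exact h2
    · exact absurd (IsTotallyReal.isReal _) (InfinitePlace.not_isReal_iff_isComplex.2 h2)

end Pool.Agent.Helper78K9.DL
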