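import Pool.Agent.Helper78K9.DL.Stm

/-!
# [BIG] hyperelementary subgroups of bicyclic groups are small
-/

set_option autoImplicit false

namespace Pool.Agent.Helper78K9.DL

open Pool.Agent.R389 Pool.Agent.Helper8K9.DC

namespace Big

theorem key {G : Type} [CommGroup G] [Finite G] {l : ℕ} (hl : l.Prime)
    (hT : Nat.card (powMonoidHom l : G →* G).ker = l ^ 2) (V : Subgroup G) (c : V)
    (hc : ∀ u : V, u ^ l = 1 → u ∈ Subgroup.zpowers c) : l ≤ V.index := by
  set T : Subgroup G := (powMonoidHom l : G →* G).ker with hTdef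
  have h1 : Nat.card (V.subgroupOf T) ≤ l := by
    have h2 : Nat.card (powMonoidHom l : Subgroup.zpowers c →* Subgroup.zpowers c).ker ≤ l := by
      rw [IsCyclic.card_powMonoidHom_ker]
      exact Nat.gcd_le_right _ hl.pos
    refine le_trans ?_ h2
    have hmem : ∀ x : V.subgroupOf T, (⟨((x : T) : G), x.2⟩ : V) ^ l = 1 := by
      intro x
      have hx : ((x : T) : G) ^ l = 1 := (x : T).2
      exact Subtype.ext hx
    refine Nat.card_le_card_of_injective
      (fun x => (⟨⟨⟨((x : T) : G), x.2⟩, hc _ (hmem x)⟩, ?_⟩ :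
        (powMonoidHom l : Subgroup.zpowers c →* Subgroup.zpowers c).ker)) ?_
    · exact Subtype.ext (hmem x)
    · intro x y hxy
      have h3 := congrArg (fun z => (((z : (powMonoidHom l : Subgroup.zpowers c →*
        Subgroup.zpowers c).ker) : Subgroup.zpowers c) : V).1) hxy
      exact Subtype.ext (Subtype.ext h3)
  have h4 := Subgroup.card_mul_index (V.subgroupOf T)
  rw [hT] at h4
  have h5 : l ≤ V.relIndex T := by
    have h6 : l * l ≤ l * V.relIndex T := by
      calc l * l = l ^ 2 := (sq l).symm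
        _ = Nat.card (V.subgroupOf T) * (V.subgroupOf T).index := h4.symm
        _ ≤ l * V.relIndex T := Nat.mul_le_mul_right _ h1
    exact Nat.le_of_mul_le_mul_left h6 hl.pos
  exact h5.trans (Nat.le_of_dvd (Nat.pos_of_ne_zero V.index_ne_zero_of_finite)
    (Subgroup.relIndex_dvd_index_of_normal V T))

theorem card_torsion {k l m : ℕ} [NeZero k] (hk : k = l * m) :
    Nat.card (powMonoidHom l : CC k →* CC k).ker = l ^ 2 := by
  have h1 : (powMonoidHom l : CC k →* CC k).ker
      = (powMonoidHom l : Multiplicative (ZMod k) →* Multiplicative (ZMod k)).ker.prod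
        (powMonoidHom l : Multiplicative (ZMod k) →* Multiplicative (ZMod k)).ker := by
    ext x
    simp only [MonoidHom.mem_ker, powMonoidHom_apply, Subgroup.mem_prod]
    constructor
    · intro h
      exact ⟨congrArg Prod.fst h, congrArg Prod.snd h⟩
    · rintro ⟨h2, h3⟩
      exact Prod.ext h2 h3
  have h2 : Nat.card (powMonoidHom l : Multiplicative (ZMod k) →* Multiplicative (ZMod k)).ker
      = l := by
    rw [IsCyclic.card_powMonoidHom_ker]
    have h3 : Nat.card (Multiplicative (ZMod k)) = k := by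
      rw [Nat.card_congr Multiplicative.toAdd, Nat.card_zmod]
    rw [h3, hk]
    exact Nat.gcd_eq_right (dvd_mul_right _ _)
  rw [h1, Nat.card_congr (Subgroup.prodEquiv _ _).toEquiv, Nat.card_prod, h2, sq]

theorem mem_of_pow {G : Type} [CommGroup G] {l r : ℕ} (hlr : Nat.Coprime l r) (c u : G)
    (hu : u ^ l = 1) {j : ℕ} (h : u ^ (r ^ j) ∈ Subgroup.zpowers c) :
    u ∈ Subgroup.zpowers c := by
  have h1 : Nat.Coprime (orderOf u) (r ^ j) :=
    (Nat.Coprime.pow_right j hlr).coprime_dvd_left (orderOf_dvd_of_pow_eq_one hu)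
  obtain ⟨a, ha⟩ := exists_pow_eq_self_of_coprime h1.symm
  rw [← ha]
  exact Subgroup.pow_mem _ h a

theorem gen {G : Type} [CommGroup G] [Finite G] {l r : ℕ} (hl : l.Prime) (hlr : Nat.Coprime l r)
    (hT : Nat.card (powMonoidHom l : G →* G).ker = l ^ 2) (V : Subgroup G) (c : V)
    (hu : ∀ u : V, ∃ k : ℕ, u ^ (r ^ k) ∈ Subgroup.zpowers c) : l ≤ V.index := by
  refine key hl hT V c ?_
  intro u hu1
  obtain ⟨j, hj⟩ := hu u
  exact mem_of_pow hlr c u hu1 hj

end Big

theorem big : S_BIG := by
  intro p q hp hq hpq V hV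
  have : NeZero (p * q) := ⟨(Nat.mul_pos hp.pos hq.pos).ne'⟩
  obtain ⟨r, hr, c, -, -, hu⟩ := hV
  by_cases hrp : r = p
  · have h1 : Nat.Coprime q r := (Nat.coprime_primes hq hr).2 (fun h => hpq (hrp.symm.trans h.symm))
    have h2 : Nat.card (powMonoidHom q : CC (p * q) →* CC (p * q)).ker = q ^ 2 :=
      Big.card_torsion (mul_comm p q)
    exact (min_le_right p q).trans (Big.gen hq h1 h2 V c hu)
  · have h1 : Nat.Coprime p r := (Nat.coprime_primes hp hr).2 (fun h => hrp h.symm)
    have h2 : Nat.card (powMonoidHom p : CC (p * q) →* CC (p * q)).ker = p ^ 2 :=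
      Big.card_torsion rfl
    exact (min_le_left p q).trans (Big.gen hp h1 h2 V c hu)

end Pool.Agent.Helper78K9.DL
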