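import Pool.Agent.Helper78K9.DL.Stm

/-!
# [CYC] bicyclic extensions of the field of rational numbers
-/

set_option autoImplicit false

namespace Pool.Agent.Helper78K9.DL

open NumberField Pool.Agent.Helper8K9.DC IntermediateField

namespace Cyc

/-- the cyclotomic character modulo `N` -/
theorem exists_cyc (N : ℕ) [NeZero N] :
    ∃ π : GQ →* (ZMod N)ˣ, Function.Surjective π ∧ IsFinite ⊤ π := by
  obtain ⟨ζ, hζ⟩ : ∃ ζ : QQ, IsPrimitiveRoot ζ N := by
    have : NeZero ((N : ℕ) : QQ) := ⟨by exact_mod_cast NeZero.ne N⟩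
    exact HasEnoughRootsOfUnity.exists_primitiveRoot QQ N
  have : Algebra.IsIntegral ℚ QQ := inferInstance
  have h1 : IsCyclotomicExtension {N} ℚ (IntermediateField.adjoin ℚ {ζ}) :=
    hζ.intermediateField_adjoin_isCyclotomicExtension ℚ
  have h2 : FiniteDimensional ℚ (IntermediateField.adjoin ℚ {ζ}) :=
    IntermediateField.adjoin.finiteDimensional (Algebra.IsIntegral.isIntegral ζ)
  have h3 : Normal ℚ (IntermediateField.adjoin ℚ {ζ}) :=
    (IsCyclotomicExtension.isGalois {N} ℚ (IntermediateField.adjoin ℚ {ζ})).to_normal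
  let e := IsCyclotomicExtension.autEquivPow (IntermediateField.adjoin ℚ {ζ})
    (Polynomial.cyclotomic.irreducible_rat (NeZero.pos N))
  refine ⟨e.toMonoidHom.comp (AlgEquiv.restrictNormalHom (IntermediateField.adjoin ℚ {ζ})), ?_, ?_⟩
  · exact e.surjective.comp (AlgEquiv.restrictNormalHom_surjective QQ)
  · refine ⟨IntermediateField.adjoin ℚ {ζ}, h2, le_top, ?_⟩
    intro γ hγ
    have h4 : AlgEquiv.restrictNormalHom (IntermediateField.adjoin ℚ {ζ}) γ = 1 := by
      refine AlgEquiv.ext fun x => ?_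
      apply (algebraMap (IntermediateField.adjoin ℚ {ζ}) QQ).injective
      refine (AlgEquiv.restrictNormal_commutes γ _ x).trans ?_
      exact (IntermediateField.mem_fixingSubgroup_iff _ _).1 hγ x.1 x.2
    change e (AlgEquiv.restrictNormalHom (IntermediateField.adjoin ℚ {ζ}) γ) = 1
    rw [h4, map_one]

/-- a finite cyclic group maps onto `ZMod k` if `k` divides its order -/
theorem exists_cyclic {C : Type} [CommGroup C] [IsCyclic C] {k : ℕ} (hk : k ∣ Nat.card C) :
    ∃ f : C →* Multiplicative (ZMod k), Function.Surjective f := by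
  refine ⟨(AddMonoidHom.toMultiplicative (ZMod.castHom hk (ZMod k)).toAddMonoidHom).comp
    (zmodCyclicMulEquiv (G := C) inferInstance).symm.toMonoidHom, ?_⟩
  have h1 : Function.Surjective
      (AddMonoidHom.toMultiplicative (ZMod.castHom hk (ZMod k)).toAddMonoidHom) := by
    intro y
    obtain ⟨x, hx⟩ := ZMod.castHom_surjective hk y.toAdd
    exact ⟨Multiplicative.ofAdd x, congrArg Multiplicative.ofAdd hx⟩
  exact h1.comp (zmodCyclicMulEquiv (G := C) inferInstance).symm.surjective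

end Cyc

theorem cyc : S_CYC := by
  intro k hk
  obtain ⟨l, hl, -, hlk⟩ := Nat.exists_prime_gt_modEq_one 0 hk.ne'
  obtain ⟨m, hm, hlm, hmk⟩ := Nat.exists_prime_gt_modEq_one l hk.ne'
  have : Fact l.Prime := ⟨hl⟩
  have : Fact m.Prime := ⟨hm⟩
  have hN : NeZero (l * m) := ⟨(Nat.mul_pos hl.pos hm.pos).ne'⟩
  obtain ⟨π, hπ, F, hF1, hF2, hF3⟩ := Cyc.exists_cyc (l * m)
  have hcard : ∀ q : ℕ, q.Prime → q ≡ 1 [MOD k] → k ∣ Nat.card (ZMod q)ˣ := by
    intro q hq hqk
    have : Fact q.Prime := ⟨hq⟩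
    rw [Nat.card_eq_fintype_card, ZMod.card_units_eq_totient, Nat.totient_prime hq]
    exact (Nat.modEq_iff_dvd' hq.one_le).1 hqk.symm
  obtain ⟨f, hf⟩ := Cyc.exists_cyclic (hcard l hl hlk)
  obtain ⟨g, hg⟩ := Cyc.exists_cyclic (hcard m hm hmk)
  have hcop : Nat.Coprime l m := (Nat.coprime_primes hl hm).2 hlm.ne
  let e : (ZMod (l * m))ˣ ≃* (ZMod l)ˣ × (ZMod m)ˣ :=
    (Units.mapEquiv (ZMod.chineseRemainder hcop).toMulEquiv).trans MulEquiv.prodUnits
  refine ⟨((f.prodMap g).comp e.toMonoidHom).comp π, ?_, F, hF1, hF2, ?_⟩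
  · exact ((Function.Surjective.prodMap hf hg).comp e.surjective).comp hπ
  · intro γ hγ
    change (f.prodMap g) (e (π γ)) = 1
    rw [hF3 γ hγ, map_one, map_one]

end Pool.Agent.Helper78K9.DL
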