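import Pool.Agent.Helper78K9.DL.Stm
import Pool.Agent.Helper8K9.DC.Cor

/-!
# Descent from large fields: extensions which are disjoint from a given number field
-/

set_option autoImplicit false

namespace Pool.Agent.Helper78K9.DL

open Matrix Polynomial Filter Topology NumberField Pool.Agent.R389 Pool.Agent.Helper8K9.DC

/-- [CYCJ] many independent cyclic extensions (cyclotomic fields) -/
def S_CYCJ : Prop := ∀ k : ℕ, 0 < k → ∀ J : ℕ, ∃ π : GQ →* (Fin J → Multiplicative (ZMod k)),
  Function.Surjective π ∧ IsFinite ⊤ π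

/-- bicyclic extensions which are disjoint from a given number field -/
theorem exists_disjoint (h : S_CYCJ) (k : ℕ) (hk : 0 < k) (F₀ : IntermediateField ℚ QQ)
    [FiniteDimensional ℚ F₀] : ∃ π : GQ →* CC k, Function.Surjective π ∧ IsFinite ⊤ π ∧
      ∀ g : CC k, ∃ γ ∈ F₀.fixingSubgroup, π γ = g := by
  classical
  have : NeZero k := ⟨hk.ne'⟩
  set r := F₀.fixingSubgroup.index with hr
  have hr0 : r ≠ 0 := by
    rw [hr, ← IntermediateField.finrank_eq_fixingSubgroup_index]
    exact Module.finrank_pos.ne'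
  -- the pairs
  obtain ⟨π, hπ, hfin⟩ := h k hk (r + r)
  let f : (Fin (r + r) → Multiplicative (ZMod k)) →* (Fin r → CC k) :=
    { toFun := fun x j => (x (Fin.castAdd r j), x (Fin.natAdd r j))
      map_one' := rfl
      map_mul' := fun _ _ => rfl }
  have hf : Function.Surjective f := by
    intro y
    refine ⟨Fin.append (fun j => (y j).1) (fun j => (y j).2), ?_⟩
    funext j
    change (Fin.append _ _ (Fin.castAdd r j), Fin.append _ _ (Fin.natAdd r j)) = y j
    rw [Fin.append_left, Fin.append_right]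
  let Φ : GQ →* (Fin r → CC k) := f.comp π
  have hΦ : Function.Surjective Φ := hf.comp hπ
  obtain ⟨F, hF, hF', hF1⟩ := hfin
  have hproj : ∀ j : Fin r, ∃ p : GQ →* CC k, (∀ γ, p γ = Φ γ j) := fun j =>
    ⟨(Pi.evalMonoidHom (fun _ : Fin r => CC k) j).comp Φ, fun γ => rfl⟩
  choose p hp using hproj
  have hps : ∀ j, Function.Surjective (p j) := by
    intro j g
    obtain ⟨γ, hγ⟩ := hΦ (fun _ => g)
    exact ⟨γ, by rw [hp, hγ]⟩
  have hpf : ∀ j, IsFinite ⊤ (p j) := by
    intro j
    refine ⟨F, hF, hF', fun γ hγ => ?_⟩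
    rw [hp]
    change f (π γ) j = 1
    rw [hF1 γ hγ, map_one]
    rfl
  by_contra hcon
  push Not at hcon
  have hbad : ∀ j, (F₀.fixingSubgroup.map (p j)) ≠ ⊤ := by
    intro j hj
    obtain ⟨g, hg⟩ := hcon (p j) (hps j) (hpf j)
    have h1 : g ∈ F₀.fixingSubgroup.map (p j) := by
      rw [hj]
      exact Subgroup.mem_top g
    obtain ⟨γ, h2, h3⟩ := Subgroup.mem_map.1 h1
    exact hg γ h2 h3
  -- count
  let S : Fin r → Subgroup (CC k) := fun j => F₀.fixingSubgroup.map (p j)
  have hS : ∀ j, 2 * Nat.card (S j) ≤ Nat.card (CC k) := by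
    intro j
    have h1 := (S j).card_mul_index
    have h2 : (S j).index ≠ 1 := fun h => hbad j (Subgroup.index_eq_one.1 h)
    have h3 : (S j).index ≠ 0 := Subgroup.index_ne_zero_of_finite
    have h4 : 2 ≤ (S j).index := by omega
    rw [← h1, mul_comm]
    exact Nat.mul_le_mul_left _ h4
  let I := F₀.fixingSubgroup.map Φ
  have hI : I ≤ Subgroup.pi Set.univ S := by
    rintro _ ⟨γ, hγ, rfl⟩
    rw [Subgroup.mem_pi]
    intro j _
    exact ⟨γ, hγ, hp j γ⟩
  have h1 : Nat.card I ≤ ∏ j, Nat.card (S j) := by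
    have h2 : Nat.card I ≤ Nat.card (∀ j, S j) := by
      refine Nat.card_le_card_of_injective
        (fun x j => ⟨x.1 j, (Subgroup.mem_pi _).1 (hI x.2) j (Set.mem_univ j)⟩) ?_
      intro x y hxy
      refine Subtype.ext (funext fun j => ?_)
      exact congrArg Subtype.val (congrFun hxy j)
    rwa [Nat.card_pi] at h2
  have h2 : I.index ≤ r := by
    have h3 := Subgroup.index_map_dvd F₀.fixingSubgroup hΦ
    exact Nat.le_of_dvd (Nat.pos_of_ne_zero hr0) h3
  have h3 := I.card_mul_index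
  have h4 : Nat.card (Fin r → CC k) = Nat.card (CC k) ^ r := by
    rw [Nat.card_pi, Finset.prod_const, Finset.card_univ, Fintype.card_fin]
  have h5 : 2 ^ r * ∏ j, Nat.card (S j) ≤ Nat.card (CC k) ^ r := by
    calc 2 ^ r * ∏ j, Nat.card (S j) = ∏ j : Fin r, 2 * Nat.card (S j) := by
          rw [Finset.prod_mul_distrib, Finset.prod_const, Finset.card_univ, Fintype.card_fin]
      _ ≤ ∏ _j : Fin r, Nat.card (CC k) := Finset.prod_le_prod' fun j _ => hS j
      _ = _ := by rw [Finset.prod_const, Finset.card_univ, Fintype.card_fin]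
  have h6 : 0 < Nat.card (CC k) ^ r := pow_pos Nat.card_pos _
  have h7 : Nat.card (CC k) ^ r ≤ (∏ j, Nat.card (S j)) * r := by
    rw [← h4, ← h3]
    exact Nat.mul_le_mul h1 h2
  have h8 : r < 2 ^ r := Nat.lt_two_pow_self
  have h9 : 0 < ∏ j, Nat.card (S j) := Finset.prod_pos fun j _ => Nat.card_pos
  have h10 : 2 ^ r * ∏ j, Nat.card (S j) ≤ r * ∏ j, Nat.card (S j) := by
    rw [mul_comm r]
    exact h5.trans h7
  exact absurd (Nat.le_of_mul_le_mul_right h10 h9) (not_le.2 h8)

/-- disjoint fields -/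
theorem inf_eq_bot {A : Type} [Group A] {π : GQ →* A} {V : Subgroup A}
    {K F₀ : IntermediateField ℚ QQ} (hK : K.fixingSubgroup = V.comap π)
    (h : ∀ g : A, ∃ γ ∈ F₀.fixingSubgroup, π γ = g) : K ⊓ F₀ = ⊥ := by
  have hG := isGalois
  rw [eq_bot_iff]
  intro x hx
  obtain ⟨h1, h2⟩ := IntermediateField.mem_inf.1 hx
  rw [← InfiniteGalois.fixedField_bot (k := ℚ) (K := QQ), IntermediateField.mem_fixedField_iff]
  intro γ _
  obtain ⟨δ, hδ, hδ'⟩ := h (π γ)
  have h3 : δ⁻¹ * γ ∈ K.fixingSubgroup := by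
    rw [hK, Subgroup.mem_comap, map_mul, map_inv, hδ', inv_mul_cancel]
    exact V.one_mem
  have h4 := (IntermediateField.mem_fixingSubgroup_iff K _).1 h3 x h1
  have h5 := (IntermediateField.mem_fixingSubgroup_iff F₀ _).1 hδ x h2
  have h6 : δ ((δ⁻¹ * γ) x) = δ x := congrArg δ h4
  rw [← AlgEquiv.mul_apply, mul_inv_cancel_left] at h6
  rw [h6, h5]

end Pool.Agent.Helper78K9.DL
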