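import Pool.Agent.Helper78K9.DL.Cyc
import Pool.Agent.Helper78K9.DL.Dis

/-!
# [CYCJ] many independent cyclic extensions
-/

set_option autoImplicit false

namespace Pool.Agent.Helper78K9.DL

open NumberField Pool.Agent.Helper8K9.DC IntermediateField

theorem cycJ : S_CYCJ := by
  classical
  intro k hk J
  have hinf := Nat.infinite_setOfPred_prime_modEq_one hk.ne'
  let ι := hinf.natEmbedding
  let l : Fin J → ℕ := fun j => (ι j.1 : ℕ)
  have hl : ∀ j, (l j).Prime := fun j => (ι j.1).2.1
  have hlk : ∀ j, l j ≡ 1 [MOD k] := fun j => (ι j.1).2.2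
  have hinj : Function.Injective l := fun i j hij => Fin.ext (ι.injective (Subtype.ext hij))
  have hcop : Pairwise (Function.onFun Nat.Coprime l) := fun i j hij =>
    (Nat.coprime_primes (hl i) (hl j)).2 (fun h => hij (hinj h))
  have hN : NeZero (∏ j, l j) := ⟨Finset.prod_ne_zero_iff.2 fun j _ => (hl j).ne_zero⟩
  obtain ⟨π, hπ, F, hF1, hF2, hF3⟩ := Cyc.exists_cyc (∏ j, l j)
  have hf : ∀ j, ∃ f : (ZMod (l j))ˣ →* Multiplicative (ZMod k), Function.Surjective f := by
    intro j
    have : Fact (l j).Prime := ⟨hl j⟩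
    refine Cyc.exists_cyclic ?_
    rw [Nat.card_eq_fintype_card, ZMod.card_units_eq_totient, Nat.totient_prime (hl j)]
    exact (Nat.modEq_iff_dvd' (hl j).one_le).1 (hlk j).symm
  choose f hf using hf
  let e : (ZMod (∏ j, l j))ˣ ≃* (∀ j, (ZMod (l j))ˣ) :=
    (Units.mapEquiv (ZMod.prodEquivPi l hcop).toMulEquiv).trans MulEquiv.piUnits
  let g : (∀ j, (ZMod (l j))ˣ) →* (Fin J → Multiplicative (ZMod k)) :=
    { toFun := fun x j => f j (x j)
      map_one' := by
        funext j
        exact map_one (f j)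
      map_mul' := fun x y => by
        funext j
        exact map_mul (f j) _ _ }
  have hg : Function.Surjective g := by
    intro y
    choose x hx using fun j => hf j (y j)
    exact ⟨x, funext hx⟩
  refine ⟨(g.comp e.toMonoidHom).comp π, (hg.comp e.surjective).comp hπ, F, hF1, hF2, ?_⟩
  intro γ hγ
  change g (e (π γ)) = 1
  rw [hF3 γ hγ, map_one, map_one]

end Pool.Agent.Helper78K9.DL
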