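import Pool.Agent.Helper8K9.DC.Mot

/-!
# Descent from large fields: definitions
-/

set_option autoImplicit false

namespace Pool.Agent.Helper78K9.DL

open Matrix Polynomial Filter Topology NumberField Pool.Agent.Helper8K9.DC

open Classical in
/-- the permutation representation `Ind_K 1` of the Galois group on the embeddings of `K` -/
noncomputable def perm (E' : Type) [Field E'] (K : IntermediateField ℚ QQ) [FiniteDimensional ℚ K] :
    GQ →* Matrix (K →ₐ[ℚ] QQ) (K →ₐ[ℚ] QQ) E' where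
  toFun γ := Matrix.of fun τ τ' => if (γ : QQ →ₐ[ℚ] QQ).comp τ' = τ then 1 else 0
  map_one' := by
    ext τ τ'
    rw [Matrix.of_apply, Matrix.one_apply]
    refine if_congr ?_ rfl rfl
    exact eq_comm
  map_mul' γ δ := by
    ext τ τ'
    rw [Matrix.of_apply, Matrix.mul_apply, Finset.sum_eq_single ((δ : QQ →ₐ[ℚ] QQ).comp τ')]
    · rw [Matrix.of_apply, Matrix.of_apply, if_pos rfl, mul_one]
      rfl
    · intro τ₁ _ h
      have h2 : ¬ ((δ : QQ →ₐ[ℚ] QQ).comp τ' = τ₁) := fun h' => h h'.symm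
      rw [Matrix.of_apply, Matrix.of_apply, if_neg h2, mul_zero]
    · intro h
      exact absurd (Finset.mem_univ _) h

section

variable {E : Type} [Field E] {d : ℕ} (M : Motive E d) {E' : Type} [Field E'] [Algebra E E']
  {n : Type} [Fintype n] [DecidableEq n]

open Classical in
/-- `ρ ⊗ Ind_K 1`: the motive `M ⊗ ρ` over the number field `K`, viewed over `ℚ`, is
`M ⊗ (ρ ⊗ Ind_K 1)` -/
noncomputable def baseChange (ρ : GQ →* Matrix n n E') (K : IntermediateField ℚ QQ)
    [FiniteDimensional ℚ K] :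
    GQ →* Matrix (n × (K →ₐ[ℚ] QQ)) (n × (K →ₐ[ℚ] QQ)) E' where
  toFun γ := kroneckerMap (· * ·) (ρ γ) (perm E' K γ)
  map_one' := by
    rw [map_one, map_one]
    exact Matrix.one_kronecker_one
  map_mul' γ δ := by
    rw [map_mul, map_mul]
    exact Matrix.mul_kronecker_mul _ _ _ _

open Classical in
/-- the L-function of `M ⊗ ρ` over `K` has a nonzero value at `m`, and Deligne's conjecture holds for
`M ⊗ ρ` over `K` at `m` -/
def Known (ι : QQ →+* ℂ) (c : GQ) (m : ℤ) (ρ : GQ →* Matrix n n E') (K : IntermediateField ℚ QQ)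
    [FiniteDimensional ℚ K] : Prop :=
  (∃ L, IsLFunction M ι (baseChange ρ K) L ∧
    ∀ τ, ∃ a : ℂ, a ≠ 0 ∧ Tendsto (L τ) (𝓝[≠] (m : ℂ)) (𝓝 a)) ∧
  DeligneConjecture M ι c m (baseChange ρ K)

end

end Pool.Agent.Helper78K9.DL
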