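import Pool.Agent.R389.Sol

/-!
# Solomon's relation with multiplicities
-/

set_option autoImplicit false

namespace Pool.Agent.Helper78K9.DL

open Pool.Agent.R389 Pool.Agent.H541R3.ART

section
variable {G : Type} [Group G] [Finite G]

/-- the permutation characters of the cosets, with values in any field of characteristic zero -/
theorem ind_cast {k : Type} [Field k] [CharZero k] (V : Subgroup G) (g : G) :
    ind V (fun _ => (1 : k)) g = ((ind V (fun _ => (1 : ℚ)) g : ℚ) : k) := by
  classical
  have := Fintype.ofFinite G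
  unfold ind
  rw [finsum_eq_sum_of_fintype, finsum_eq_sum_of_fintype]
  push_cast
  congr 1
  refine Finset.sum_congr rfl fun x _ => ?_
  unfold ext
  split_ifs <;> simp

/-- **Solomon's induction theorem** as a relation between permutation characters with nonnegative
multiplicities -/
theorem solomon : ∃ A B : List (Subgroup G), (∀ V ∈ A, Hyper V) ∧ (∀ V ∈ B, Hyper V) ∧ A ≠ [] ∧
    B ≠ [] ∧ ∀ g : G, 1 + (B.map fun V => ind V (fun _ => (1 : ℚ)) g).sum =
      (A.map fun V => ind V (fun _ => (1 : ℚ)) g).sum := by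
  have key : ∀ f ∈ Sol G, ∃ A B : List (Subgroup G), (∀ V ∈ A, Hyper V) ∧ (∀ V ∈ B, Hyper V) ∧
      ∀ g : G, f g + ((((B.map fun V => ind V (fun _ => (1 : ℚ)) g).sum : ℚ)) : ℂ) =
        (((A.map fun V => ind V (fun _ => (1 : ℚ)) g).sum : ℚ) : ℂ) := by
    intro f hf
    refine AddSubgroup.closure_induction (p := fun f _ => ∃ A B : List (Subgroup G),
      (∀ V ∈ A, Hyper V) ∧ (∀ V ∈ B, Hyper V) ∧
      ∀ g : G, f g + ((((B.map fun V => ind V (fun _ => (1 : ℚ)) g).sum : ℚ)) : ℂ) =
        (((A.map fun V => ind V (fun _ => (1 : ℚ)) g).sum : ℚ) : ℂ)) ?_ ?_ ?_ ?_ hf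
    · rintro f ⟨U, hU, rfl⟩
      refine ⟨[U], [], by simpa using hU, by simp, fun g => ?_⟩
      rw [ind_cast]
      simp
    · exact ⟨[], [], by simp, by simp, fun g => by simp⟩
    · rintro f f' _ _ ⟨A, B, hA, hB, h⟩ ⟨A', B', hA', hB', h'⟩
      refine ⟨A ++ A', B ++ B', ?_, ?_, fun g => ?_⟩
      · intro V hV
        rcases List.mem_append.1 hV with hV | hV
        · exact hA V hV
        · exact hA' V hV
      · intro V hV
        rcases List.mem_append.1 hV with hV | hV
        · exact hB V hV
        · exact hB' V hV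
      · have h1 := h g
        have h2 := h' g
        rw [List.map_append, List.sum_append, List.map_append, List.sum_append, Rat.cast_add,
          Rat.cast_add, ← h1, ← h2, Pi.add_apply]
        ring
    · rintro f _ ⟨A, B, hA, hB, h⟩
      refine ⟨B, A, hB, hA, fun g => ?_⟩
      rw [← h g, Pi.neg_apply]
      ring
  obtain ⟨A, B, hA, hB, h⟩ := key _ (one_mem_sol (G := G))
  have hbot : Hyper (⊥ : Subgroup G) :=
    Hyper.of_pgroup Nat.prime_two IsPGroup.of_bot
  refine ⟨⊥ :: A, ⊥ :: B, ?_, ?_, by simp, by simp, fun g => ?_⟩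
  · intro V hV
    rcases List.mem_cons.1 hV with rfl | hV
    · exact hbot
    · exact hA V hV
  · intro V hV
    rcases List.mem_cons.1 hV with rfl | hV
    · exact hbot
    · exact hB V hV
  · have h1 := h g
    rw [List.map_cons, List.sum_cons, List.map_cons, List.sum_cons]
    have h2 : (1 : ℚ) + (B.map fun V => ind V (fun _ => (1 : ℚ)) g).sum =
        (A.map fun V => ind V (fun _ => (1 : ℚ)) g).sum := by
      have h3 : (((1 : ℚ) + (B.map fun V => ind V (fun _ => (1 : ℚ)) g).sum : ℚ) : ℂ) =
          (((A.map fun V => ind V (fun _ => (1 : ℚ)) g).sum : ℚ) : ℂ) := by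
        rw [← h1, Rat.cast_add, Rat.cast_one]
      exact_mod_cast h3
    linarith

end

end Pool.Agent.Helper78K9.DL
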