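import Pool.Agent.Helper78K9.DL.Defs
import Pool.Agent.Helper78K9.DL.Rel
import Pool.Agent.Helper8K9.DC.Chr
import Pool.Agent.Helper8K9.DC.Iso
import Pool.Agent.Helper8K9.DC.Ldiv
import Pool.Agent.Helper8K9.DC.Lmul
import Pool.Agent.Helper8K9.DC.Lsum
import Pool.Agent.Helper8K9.DC.Liso
import Pool.Agent.Helper8K9.DC.Luni
import Pool.Agent.Helper8K9.DC.Pne
import Pool.Agent.Helper8K9.DC.Puni
import Pool.Agent.Helper8K9.DC.Psum
import Pool.Agent.Helper8K9.DC.Pex

/-!
# Descent from large fields: the descent for a finite quotient of the Galois group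
-/

set_option autoImplicit false
set_option linter.unusedSectionVars false

namespace Pool.Agent.Helper78K9.DL

open Matrix Polynomial Filter Topology NumberField Pool.Agent.R389 Pool.Agent.H541R3.ART
  Pool.Agent.Helper8K9.DC

section nice
variable {E : Type} [Field E] {d : ℕ} (M : Motive E d) (ι : QQ →+* ℂ) (c : GQ) (m : ℤ)
  {E' : Type} [Field E'] [NumberField E'] [Algebra E E']

/-- class functions of representations for which everything is known -/
def Nice (f : GQ → E') : Prop := ∃ (n : Type) (_ : Fintype n) (_ : DecidableEq n)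
  (ρ : GQ →* Matrix n n E') (a Ω : (E' →+* QQ) → ℂ) (e : E'), IsFinite ⊤ ρ ∧
  (∀ γ, (ρ γ).trace = f γ) ∧ HasValue M ι m ρ a ∧ IsPeriod M ι c ρ ((-1) ^ m) Ω ∧ e ≠ 0 ∧
  ∀ τ, a τ = ι (τ e) * (2 * Real.pi * Complex.I) ^ (m * (d * Fintype.card n)) * Ω τ

variable {M ι c m}

theorem two_pi_I : (2 * Real.pi * Complex.I : ℂ) ≠ 0 := by
  have h := Real.pi_ne_zero
  simp [Complex.I_ne_zero, h]

theorem isFinite_dsum {n n' : Type} [Fintype n] [DecidableEq n] [Fintype n'] [DecidableEq n']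
    {ρ : GQ →* Matrix n n E'} {ρ' : GQ →* Matrix n' n' E'} (h : IsFinite ⊤ ρ)
    (h' : IsFinite ⊤ ρ') : IsFinite ⊤ (dsum ρ ρ') := by
  obtain ⟨F, hF, -, h1⟩ := h
  obtain ⟨F', hF', -, h1'⟩ := h'
  refine ⟨F ⊔ F', IntermediateField.finiteDimensional_sup F F', le_top, fun γ hγ => ?_⟩
  have h2 : γ ∈ F.fixingSubgroup := IntermediateField.fixingSubgroup_antitone le_sup_left hγ
  have h3 : γ ∈ F'.fixingSubgroup := IntermediateField.fixingSubgroup_antitone le_sup_right hγ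
  change fromBlocks (ρ γ) 0 0 (ρ' γ) = 1
  rw [h1 γ h2, h1' γ h3, fromBlocks_one]

theorem Nice.add {f g : GQ → E'} (hf : Nice M ι c m f) (hg : Nice M ι c m g) :
    Nice M ι c m (fun γ => f γ + g γ) := by
  obtain ⟨n, _, _, ρ, a, Ω, e, h1, h2, h3, h4, h5, h6⟩ := hf
  obtain ⟨n', _, _, ρ', a', Ω', e', h1', h2', h3', h4', h5', h6'⟩ := hg
  refine ⟨n ⊕ n', inferInstance, inferInstance, dsum ρ ρ', fun τ => a τ * a' τ,
    fun τ => Ω τ * Ω' τ, e * e', isFinite_dsum h1 h1', fun γ => ?_,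
    lmul lsum E d M ι m E' n n' ρ ρ' a a' h3 h3', psum E d M ι c E' n n' ρ ρ' _ Ω Ω' h4 h4',
    mul_ne_zero h5 h5', fun τ => ?_⟩
  · change (fromBlocks (ρ γ) 0 0 (ρ' γ)).trace = f γ + g γ
    rw [← h2, ← h2']
    simp only [Matrix.trace, diag_apply, Fintype.sum_sum_type, fromBlocks_apply₁₁,
      fromBlocks_apply₂₂]
  · change a τ * a' τ = _
    rw [h6, h6', Fintype.card_sum, Nat.cast_add, mul_add, mul_add, zpow_add₀ two_pi_I, map_mul,
      map_mul]
    ring

theorem Nice.list {X : Type} (f : X → GQ → E') : ∀ A : List X, A ≠ [] →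
    (∀ V ∈ A, Nice M ι c m (f V)) → Nice M ι c m (fun γ => (A.map fun V => f V γ).sum)
  | [], h, _ => absurd rfl h
  | [V], _, h => by
    simpa using h V (by simp)
  | V :: W :: A, _, h => by
    have h1 := Nice.list f (W :: A) (by simp) (fun U hU => h U (List.mem_cons_of_mem V hU))
    have h2 := (h V (by simp)).add h1
    exact h2

variable {G : Type} [Group G] [Finite G] {π : GQ →* G} {n : Type} [Fintype n] [DecidableEq n]
  {ρ : GQ →* Matrix n n E'}

theorem perm_eq (K : IntermediateField ℚ QQ) [FiniteDimensional ℚ K] {V : Subgroup G}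
    (hK : K.fixingSubgroup = V.comap π) (γ : GQ) :
    perm E' K γ = inducedMatrix K (pull hK (1 : V →* E'ˣ)) γ := by
  classical
  ext τ τ'
  have h1 : ((γ : QQ →ₐ[ℚ] QQ).comp τ' = τ) ↔
      (extend K τ)⁻¹ * γ * extend K τ' ∈ K.fixingSubgroup := by
    rw [mem_fixing]
    constructor
    · intro h x
      exact DFunLike.congr_fun h x
    · intro h
      exact AlgHom.ext h
  change (if (γ : QQ →ₐ[ℚ] QQ).comp τ' = τ then (1 : E') else 0) = _
  unfold inducedMatrix
  rw [Matrix.of_apply]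
  by_cases h : (extend K τ)⁻¹ * γ * extend K τ' ∈ K.fixingSubgroup
  · rw [if_pos (h1.2 h), dif_pos h]
    simp [pull]
  · rw [if_neg (fun h' => h (h1.1 h')), dif_neg h]

open Classical in
theorem isFinite_baseChange (hπ : IsFinite ⊤ π) (hρ : IsFinite ⊤ ρ) (K : IntermediateField ℚ QQ)
    [FiniteDimensional ℚ K] {V : Subgroup G} (hK : K.fixingSubgroup = V.comap π) :
    IsFinite ⊤ (baseChange ρ K) := by
  obtain ⟨F, hF, -, h1⟩ := hπ
  obtain ⟨F', hF', -, h1'⟩ := hρ
  refine ⟨F ⊔ F', IntermediateField.finiteDimensional_sup F F', le_top, fun γ hγ => ?_⟩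
  have h2 : γ ∈ F.fixingSubgroup := IntermediateField.fixingSubgroup_antitone le_sup_left hγ
  have h3 : γ ∈ F'.fixingSubgroup := IntermediateField.fixingSubgroup_antitone le_sup_right hγ
  have h4 : perm E' K γ = 1 := by
    rw [perm_eq K hK, ← inducedMatrix_one K (pull hK (1 : V →* E'ˣ))]
    ext τ τ'
    unfold inducedMatrix
    rw [Matrix.of_apply, Matrix.of_apply]
    have h5 : ((extend K τ)⁻¹ * γ * extend K τ' ∈ K.fixingSubgroup) ↔
        ((extend K τ)⁻¹ * 1 * extend K τ' ∈ K.fixingSubgroup) := by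
      rw [hK, Subgroup.mem_comap, Subgroup.mem_comap, map_mul, map_mul, h1 γ h2, map_mul, map_mul,
        map_one]
    by_cases h : (extend K τ)⁻¹ * γ * extend K τ' ∈ K.fixingSubgroup
    · rw [dif_pos h, dif_pos (h5.1 h)]
      simp [pull]
    · rw [dif_neg h, dif_neg (fun h' => h (h5.2 h'))]
  change kroneckerMap (· * ·) (ρ γ) (perm E' K γ) = 1
  rw [h4, h1' γ h3]
  exact Matrix.one_kronecker_one

theorem known_nice [NumberField E] (hcc : c * c = 1) (hsurj : Function.Surjective π)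
    (hπ : IsFinite ⊤ π) (hρ : IsFinite ⊤ ρ)
    (K : IntermediateField ℚ QQ) [FiniteDimensional ℚ K] {V : Subgroup G}
    (hK : K.fixingSubgroup = V.comap π) (h : Known M ι c m ρ K) :
    Nice M ι c m (fun γ => (ρ γ).trace * ind V (fun _ => (1 : E')) (π γ)) := by
  classical
  obtain ⟨⟨L, hL, hv⟩, hD⟩ := h
  choose a ha0 ha using hv
  have hfin := isFinite_baseChange (E' := E') hπ hρ K hK
  obtain ⟨Ω, hΩ⟩ := pex E d M ι c hcc E' _ ⊤ (baseChange ρ K) ((-1) ^ m) hfin
  obtain ⟨e, he⟩ := hD L Ω hL hΩ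
  have heq : ∀ τ, a τ = ι (τ e) * (2 * Real.pi * Complex.I) ^
      (m * (d * Fintype.card (n × (K →ₐ[ℚ] QQ)))) * Ω τ := by
    intro τ
    exact tendsto_nhds_unique (ha τ) (he τ)
  refine ⟨n × (K →ₐ[ℚ] QQ), inferInstance, inferInstance, baseChange ρ K, a, Ω, e, hfin,
    fun γ => ?_, ⟨L, hL, fun τ => ⟨ha0 τ, ha τ⟩⟩, hΩ, ?_, heq⟩
  · change (kroneckerMap (· * ·) (ρ γ) (perm E' K γ)).trace = _
    rw [trace_kronecker, perm_eq K hK, chr E' G π hsurj V K hK 1 γ]
    simp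
  · rintro rfl
    obtain ⟨τ⟩ := Per.exists_emb E'
    apply ha0 τ
    rw [heq, map_zero, map_zero, zero_mul, zero_mul]

theorem descent [NumberField E] (hcc : c * c = 1) (hsurj : Function.Surjective π)
    (hπ : IsFinite ⊤ π) (hρ : IsFinite ⊤ ρ)
    (h : ∀ V : Subgroup G, Hyper V → ∃ (K : IntermediateField ℚ QQ) (_ : FiniteDimensional ℚ K),
      K.fixingSubgroup = V.comap π ∧ Known M ι c m ρ K) :
    DeligneConjecture M ι c m ρ ∧ ∀ L, IsLFunction M ι ρ L → ∀ τ, ∃ a : ℂ, a ≠ 0 ∧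
      Tendsto (L τ) (𝓝[≠] (m : ℂ)) (𝓝 a) := by
  classical
  have halg : Algebra.IsAlgebraic E E' := by
    have h1 : Algebra.IsAlgebraic ℚ E' := inferInstance
    have h2 : IsScalarTower ℚ E E' := inferInstance
    exact Algebra.IsAlgebraic.tower_top (K := ℚ) E
  obtain ⟨A, B, hA, hB, hA0, hB0, hrel⟩ := solomon (G := G)
  let f : Subgroup G → GQ → E' := fun V γ => (ρ γ).trace * ind V (fun _ => (1 : E')) (π γ)
  have hnice : ∀ V : Subgroup G, Hyper V → Nice M ι c m (f V) := by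
    intro V hV
    obtain ⟨K, hK, h1, h2⟩ := h V hV
    exact known_nice hcc hsurj hπ hρ K h1 h2
  obtain ⟨nA, _, _, ρA, aA, ΩA, eA, a1, a2, a3, a4, a5, a6⟩ :=
    Nice.list f A hA0 fun V hV => hnice V (hA V hV)
  obtain ⟨nB, _, _, ρB, aB, ΩB, eB, b1, b2, b3, b4, b5, b6⟩ :=
    Nice.list f B hB0 fun V hV => hnice V (hB V hV)
  have hsum : ∀ (C : List (Subgroup G)) (γ : GQ), (C.map fun V => f V γ).sum =
      (ρ γ).trace * (((C.map fun V => ind V (fun _ => (1 : ℚ)) (π γ)).sum : ℚ) : E') := by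
    intro C γ
    induction C with
    | nil => simp
    | cons V C ih =>
      rw [List.map_cons, List.sum_cons, ih, List.map_cons, List.sum_cons, Rat.cast_add, mul_add]
      congr 1
      simp only [f]
      rw [ind_cast]
  have htr : ∀ γ, (dsum ρ ρB γ).trace = (ρA γ).trace := by
    intro γ
    have h1 : (dsum ρ ρB γ).trace = (ρ γ).trace + (ρB γ).trace := by
      change (fromBlocks (ρ γ) 0 0 (ρB γ)).trace = _
      simp only [Matrix.trace, diag_apply, Fintype.sum_sum_type, fromBlocks_apply₁₁,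
        fromBlocks_apply₂₂]
    rw [h1, a2, b2]
    change (ρ γ).trace + (B.map fun V => f V γ).sum = (A.map fun V => f V γ).sum
    rw [hsum, hsum, ← hrel (π γ), Rat.cast_add, Rat.cast_one, mul_add, mul_one]
  obtain ⟨X, Y, hXY, hYX, hX⟩ := iso E' ⊤ (n ⊕ nB) nA (dsum ρ ρB) ρA (isFinite_dsum hρ b1) a1 htr
  have hcard : Fintype.card nA = Fintype.card n + Fintype.card nB := by
    have h1 := htr 1
    rw [map_one, map_one, Matrix.trace_one, Matrix.trace_one, Fintype.card_sum] at h1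
    exact_mod_cast h1.symm
  have hlim := ldiv lsum liso luni E d M ι m E' n nA nB ρ ρA ρB X Y hXY hYX hX aA aB a3 b3
  refine ⟨?_, ?_⟩
  · intro L Ω hL hΩ
    have h1 := psum E d M ι c E' n nB ρ ρB _ Ω ΩB hΩ b4
    have h2 := piso E d M ι c E' (n ⊕ nB) nA (dsum ρ ρB) ρA X Y hXY hYX hX _ ΩA a4
    obtain ⟨e', he', h3⟩ := puni E d M ι c E' (n ⊕ nB) (dsum ρ ρB) _ _ _ h1 h2
    refine ⟨eA / eB / e', fun τ => ?_⟩
    have h4 := hlim L hL τ
    convert h4 using 2
    rw [a6, b6, hcard, Nat.cast_add, mul_add, mul_add, zpow_add₀ two_pi_I]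
    have h5 := h3 τ
    have n1 : ι (τ e') ≠ 0 := by
      rw [Ne, map_eq_zero, map_eq_zero]
      exact he'
    have n2 : ι (τ eB) ≠ 0 := by
      rw [Ne, map_eq_zero, map_eq_zero]
      exact b5
    have n3 : ΩB τ ≠ 0 := pne E d M ι c E' nB ρB _ ΩB b4 τ
    have n4 : (2 * Real.pi * Complex.I : ℂ) ^ (m * (d * Fintype.card nB)) ≠ 0 :=
      zpow_ne_zero _ two_pi_I
    have h6 : ΩA τ = Ω τ * ΩB τ / ι (τ e') := by
      rw [eq_div_iff n1, h5, mul_comm]
    rw [map_div₀, map_div₀, map_div₀, map_div₀, h6]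
    field_simp
  · intro L hL τ
    obtain ⟨LA, -, hA1⟩ := a3
    obtain ⟨LB, -, hB1⟩ := b3
    exact ⟨_, div_ne_zero (hA1 τ).1 (hB1 τ).1, hlim L hL τ⟩

end nice

end Pool.Agent.Helper78K9.DL
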