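import Pool.Agent.Helper8K9.DC.Stm

/-!
# Descent from large fields: definitions and leaves
-/

set_option autoImplicit false

namespace Pool.Agent.Helper78K9.DL

open Matrix Polynomial Filter Topology NumberField Pool.Agent.R389 Pool.Agent.Helper8K9.DC

/-- the cyclic group of order `k`, twice -/
abbrev CC (k : ℕ) : Type := Multiplicative (ZMod k) × Multiplicative (ZMod k)

/-- [CYC] bicyclic extensions (cyclotomic fields) -/
def S_CYC : Prop := ∀ k : ℕ, 0 < k → ∃ π : GQ →* CC k, Function.Surjective π ∧ IsFinite ⊤ π

/-- [BIG] hyperelementary subgroups of bicyclic groups are small -/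
def S_BIG : Prop := ∀ p q : ℕ, p.Prime → q.Prime → p ≠ q → ∀ V : Subgroup (CC (p * q)),
  Hyper V → min p q ≤ V.index

/-- [ATR] abelian extensions of odd order are totally real, and the degree is the index -/
def S_ATR : Prop := ∀ (A : Type) [CommGroup A] [Finite A] (π : GQ →* A), Odd (Nat.card A) →
  Function.Surjective π → ∀ (V : Subgroup A) (K : IntermediateField ℚ QQ) [FiniteDimensional ℚ K],
  K.fixingSubgroup = V.comap π →
    IsAbelianGalois ℚ K ∧ IsTotallyReal K ∧ Module.finrank ℚ K = V.index

end Pool.Agent.Helper78K9.DL
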